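import Pool.Agent.Q84.PH2

/-!
A symmetric polynomial hypergroup on `ℕ` with `0` in the dual space and `h(2) = 15/8 < 2`.
-/

set_option autoImplicit false

open Finset Polynomial

namespace Pool.Agent.Results.MP_5cc272_an.ZeroInDual

/-- The polynomials `P₀ = 1`, `P₁ = x`, `x Pₙ = (1 - cₙ) Pₙ₊₁ + cₙ Pₙ₋₁`. -/
noncomputable def P (c : ℕ → ℝ) : ℕ → ℝ[X]
  | 0 => 1
  | 1 => X
  | (n + 2) => C (1 - c (n + 1))⁻¹ * (X * P c (n + 1) - C (c (n + 1)) * P c n)

/-- The linearization coefficients are nonnegative: each product `Pₘ Pₙ` is a combination of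
`P₀, …, Pₘ₊ₙ` with nonnegative coefficients. -/
def InducesHypergroup (c : ℕ → ℝ) : Prop :=
  ∃ g : ℕ → ℕ → ℕ → ℝ, (∀ m n k, 0 ≤ g m n k) ∧ ∀ m n : ℕ, P c m * P c n =
    ∑ k ∈ range (m + n + 1), C (g m n k) * P c k

/-- The Haar weights `h(n) = ∏_{1 ≤ k ≤ n} aₖ₋₁ / cₖ`, where `a₀ = 1`, `aₖ = 1 - cₖ`. -/
noncomputable def haar (c : ℕ → ℝ) (n : ℕ) : ℝ :=
  ∏ k ∈ range n, (if k = 0 then 1 else 1 - c k) / c (k + 1)

/-- `x` is in the dual space: `|Pₙ(x)| ≤ 1` for all `n`. -/
def InDual (c : ℕ → ℝ) (x : ℝ) : Prop := ∀ n, |(P c n).eval x| ≤ 1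

open Pool.Agent.Q84.PH

theorem eval_P (x : ℝ) (n : ℕ) : (P cc n).eval x = p n x := by
  induction n using Nat.twoStepInduction with
  | zero => simp [P, p_zero]
  | one => simp [P, p_one]
  | more n ih0 ih1 =>
    rw [P, p_add_two, ← ih0, ← ih1]
    simp only [eval_mul, eval_C, eval_sub, eval_X]
    rw [div_eq_inv_mul]

theorem p_odd_zero (n : ℕ) : p (2 * n + 1) 0 = 0 := by
  induction n with
  | zero => simp [p_one]
  | succ n ih =>
    have h := rec_gen (2 * n + 1) 0
    rw [ih, mul_zero, zero_mul, add_zero] at h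
    have h1 := cc_lt (2 * n + 1 + 1)
    rcases mul_eq_zero.1 h.symm with h2 | h2
    · linarith
    · exact h2

theorem p_even_zero (n : ℕ) : |p (2 * n + 2) 0| ≤ 1 := by
  induction n with
  | zero =>
    rw [show 2 * 0 + 2 = 2 from rfl, p2_eq]
    norm_num [abs_le]
  | succ n ih =>
    have h := rec_odd n 0
    rw [zero_mul] at h
    rw [show 2 * (n + 1) + 2 = 2 * n + 4 by ring]
    rw [abs_le] at ih ⊢
    constructor <;> linarith [ih.1, ih.2]

theorem result : ∃ c : ℕ → ℝ, (∀ n, 1 ≤ n → 0 < c n ∧ c n < 1) ∧ InducesHypergroup c ∧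
    InDual c 0 ∧ haar c 2 < 2 := by
  refine ⟨cc, fun n hn => ⟨cc_pos n hn, cc_lt n⟩, ?_, fun n => ?_, ?_⟩
  · choose g hg h using lin
    refine ⟨fun m n k => if max (m - n) (n - m) ≤ k then g m n k else 0, fun m n k => ?_,
      fun m n => ?_⟩
    · beta_reduce
      split_ifs
      · exact hg _ _ _
      · exact le_rfl
    refine Polynomial.funext fun x => ?_
    rw [eval_mul, eval_P, eval_P, h, eval_finsetSum]
    have hs : Icc (max (m - n) (n - m)) (m + n) ⊆ range (m + n + 1) := fun k hk => by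
      rw [Finset.mem_Icc] at hk; rw [Finset.mem_range]; omega
    rw [← Finset.sum_subset hs]
    · refine Finset.sum_congr rfl fun k hk => ?_
      rw [Finset.mem_Icc] at hk
      beta_reduce
      rw [if_pos hk.1, eval_mul, eval_C, eval_P]
    · intro k h1 h2
      rw [Finset.mem_range] at h1
      rw [Finset.mem_Icc, not_and_or] at h2
      beta_reduce
      rw [if_neg (by omega)]
      simp
  · rw [eval_P]
    rcases Nat.even_or_odd' n with ⟨i, hi | hi⟩
    · rcases Nat.eq_zero_or_pos i with h0 | h0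
      · rw [hi, h0]; simp [p_zero]
      · obtain ⟨j, rfl⟩ : ∃ j, i = j + 1 := ⟨i - 1, by omega⟩
        rw [hi, show 2 * (j + 1) = 2 * j + 2 by ring]
        exact p_even_zero j
    · rw [hi, p_odd_zero]; simp
  · rw [haar, Finset.prod_range_succ, Finset.prod_range_one, cc_one, cc_two]
    norm_num

end Pool.Agent.Results.MP_5cc272_an.ZeroInDual
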